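import Pool.Agent.helper36.BP.SpecE
import Pool.Agent.helper22.CH.LOC

/-! Row LOB of project bp (MP_ad8ced_nt) -/

set_option autoImplicit false

open Finset
open Pool.Agent.FI Pool.Agent.HK
open Pool.Agent.CH (nit rgh ll2 JV)
open Pool.Agent.SK (tr0 Th)
open Pool.Agent.helper74.TG (ee gb)
open Pool.Agent.CH (LOC_sum_Icc LOC_exp LOC_delta LOC_P LOC_gb_nonneg LOC_two_pow LOC_nit_norm)

namespace Pool.Agent.BP

/-- Taylor expansion of `log (1 + w)`. -/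
theorem LOB_taylor (k : ℕ) (w : ℝ) (h1 : |w| ≤ 1 / 2) :
    |Real.log (1 + w) - ∑ j ∈ Icc 1 k, -((-w) ^ j / j)| ≤ 2 * |w| ^ (k + 1) := by
  have hw : |-w| < 1 := by rw [abs_neg]; linarith
  have h := Real.abs_log_sub_add_sum_range_le hw k
  rw [abs_neg, sub_neg_eq_add] at h
  have e1 : Real.log (1 + w) - ∑ j ∈ Icc 1 k, -((-w) ^ j / (j : ℝ)) =
      (∑ i ∈ range k, (-w) ^ (i + 1) / ((i : ℝ) + 1)) + Real.log (1 + w) := by
    rw [LOC_sum_Icc (fun j => -((-w) ^ j / (j : ℝ))), Finset.sum_neg_distrib]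
    push_cast
    ring
  rw [e1]
  refine le_trans h ?_
  rw [div_le_iff₀ (by linarith)]
  have : 0 ≤ |w| ^ (k + 1) := pow_nonneg (abs_nonneg w) _
  nlinarith

/-- comparison of one term -/
theorem LOB_term (k : ℕ) (t x z : ℝ) (hx : x ≠ 0) (hz1 : |z / x| ≤ 1 / 2) :
    ‖nit t |x + z| - nit t |x| * ee (∑ j ∈ Icc 1 k, (-(-1) ^ j * t / (2 * Real.pi * j * x ^ j)) * z ^ j)‖
      ≤ |t| * (2 * |z / x| ^ (k + 1)) := by
  have hT := LOB_taylor k (z / x) hz1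
  have e1 : nit t |x| * ee (∑ j ∈ Icc 1 k, (-(-1) ^ j * t / (2 * Real.pi * j * x ^ j)) * z ^ j) =
      Complex.exp (((t * (Real.log |x| + ∑ j ∈ Icc 1 k, -((-(z / x)) ^ j / j)) : ℝ) : ℂ) * Complex.I) := by
    rw [Pool.Agent.CH.nit, Pool.Agent.helper74.TG.ee, ← Complex.exp_add]
    congr 1
    have e2 : 2 * Real.pi * (∑ j ∈ Icc 1 k, (-(-1) ^ j * t / (2 * Real.pi * j * x ^ j)) * z ^ j) =
        t * ∑ j ∈ Icc 1 k, -((-(z / x)) ^ j / (j : ℝ)) := by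
      rw [Finset.mul_sum, Finset.mul_sum]
      refine Finset.sum_congr rfl fun j hj => ?_
      have hj0 : (j : ℝ) ≠ 0 := by
        have := (Finset.mem_Icc.1 hj).1
        positivity
      have hx0 : x ^ j ≠ 0 := pow_ne_zero _ hx
      rw [neg_pow (z / x), div_pow]
      field_simp
    have e3 : ((2 * Real.pi * (∑ j ∈ Icc 1 k, (-(-1) ^ j * t / (2 * Real.pi * j * x ^ j)) * z ^ j) : ℝ) : ℂ) =
        ((t * ∑ j ∈ Icc 1 k, -((-(z / x)) ^ j / (j : ℝ)) : ℝ) : ℂ) := by rw [e2]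
    rw [Complex.ofReal_mul, Complex.ofReal_mul] at e3
    rw [mul_add, Complex.ofReal_add, add_mul, ← e3]
    push_cast
    ring
  rw [e1, Pool.Agent.CH.nit]
  refine le_trans (LOC_exp _ _) ?_
  have hpos : 0 < 1 + z / x := by
    have := abs_le.1 hz1
    linarith
  have e4 : Real.log |x + z| = Real.log |x| + Real.log (1 + z / x) := by
    rw [← Real.log_mul (abs_ne_zero.2 hx) hpos.ne']
    congr 1
    have e5 : x + z = x * (1 + z / x) := by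
      field_simp
    rw [e5, abs_mul, abs_of_pos hpos]
  rw [e4, ← mul_sub, abs_mul]
  refine mul_le_mul_of_nonneg_left ?_ (abs_nonneg t)
  rwa [add_sub_add_left_eq_sub]

theorem LOB_ee_add (a b : ℝ) : ee (a + b) = ee a * ee b := by
  rw [Pool.Agent.helper74.TG.ee, Pool.Agent.helper74.TG.ee, Pool.Agent.helper74.TG.ee, ← Complex.exp_add]
  congr 1
  push_cast
  ring

theorem LOB_ee_norm (a : ℝ) : ‖ee a‖ = 1 := by
  rw [Pool.Agent.helper74.TG.ee]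
  have e : (2 * Real.pi * a * Complex.I : ℂ) = ((2 * Real.pi * a : ℝ) : ℂ) * Complex.I := by
    push_cast
    ring
  rw [e, Complex.norm_exp_ofReal_mul_I]

theorem LOB_two (a b c d : ℂ) (hb : ‖b‖ = 1) (hc : ‖c‖ = 1) : ‖a * b - c * d‖ ≤ ‖a - c‖ + ‖b - d‖ := by
  have e : a * b - c * d = (a - c) * b + c * (b - d) := by ring
  rw [e]
  refine le_trans (norm_add_le _ _) ?_
  rw [norm_mul, norm_mul, hb, hc, mul_one, one_mul]

theorem LOB_brk (l : ℕ) (hl : 1 ≤ l) (L ρ y δ : ℝ) (hL : 10 ^ 16 * (l : ℝ) ^ 9 < L) (hy : 1 ≤ y)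
    (hy2 : y ≤ Real.exp (2 / 5 * L)) (hδ0 : 0 ≤ δ) (hδ : δ ≤ 1 / 500) (hρ0 : 0 ≤ ρ)
    (hρ : ρ ≤ 2 * Real.exp (-(2 / 5 * L)) + (1 + 250 * (l : ℝ) ^ 3 + 5 * l * L) * (5 * l) *
      200 ^ (5 * l) * Real.exp (-(3 / 50 * L))) :
    (2 : ℝ) ^ (100 * (5 * l) ^ 5 * (2 * (2 * (5 * l) ^ 2)) ^ 2) *
      2 ^ (100 * (5 * l) ^ 5 * (2 * (5 * l) ^ 2) ^ 2) *
      (3 * (250 * (l : ℝ) ^ 3)) ^ (2 * (5 * l)) * y ^ δ * ρ ≤ Real.exp (-(3 / 100 * L)) := by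
  have hl' : (1 : ℝ) ≤ l := by exact_mod_cast hl
  have hq3 : (l : ℝ) ^ 3 ≤ (l : ℝ) ^ 9 := pow_le_pow_right₀ hl' (by norm_num)
  have hq4 : (l : ℝ) ^ 4 ≤ (l : ℝ) ^ 9 := pow_le_pow_right₀ hl' (by norm_num)
  have hq1 : (l : ℝ) ≤ (l : ℝ) ^ 9 := by
    have := pow_le_pow_right₀ hl' (show 1 ≤ 9 by norm_num)
    simpa using this
  have hq0 : (1 : ℝ) ≤ (l : ℝ) ^ 9 := one_le_pow₀ hl'
  have hL0 : (10 : ℝ) ^ 16 < L := by nlinarith
  -- powers of two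
  have a1 : (2 : ℝ) ^ (100 * (5 * l) ^ 5 * (2 * (2 * (5 * l) ^ 2)) ^ 2) ≤ Real.exp (1 / 2000 * L) := by
    refine le_trans (LOC_two_pow _) (Real.exp_le_exp.2 ?_)
    push_cast
    nlinarith
  have a2 : (2 : ℝ) ^ (100 * (5 * l) ^ 5 * (2 * (5 * l) ^ 2) ^ 2) ≤ Real.exp (1 / 2000 * L) := by
    refine le_trans (LOC_two_pow _) (Real.exp_le_exp.2 ?_)
    push_cast
    nlinarith
  have a3 : (3 * (250 * (l : ℝ) ^ 3)) ^ (2 * (5 * l)) ≤ Real.exp (1 / 1000 * L) := by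
    have h1 : 3 * (250 * (l : ℝ) ^ 3) ≤ Real.exp (3 * (250 * (l : ℝ) ^ 3)) := by
      have := Real.add_one_le_exp (3 * (250 * (l : ℝ) ^ 3))
      linarith
    refine le_trans (pow_le_pow_left₀ (by positivity) h1 _) ?_
    rw [← Real.exp_nat_mul]
    apply Real.exp_le_exp.2
    push_cast
    nlinarith
  have a4 : y ^ δ ≤ Real.exp (1 / 1000 * L) := by
    calc y ^ δ ≤ (Real.exp (2 / 5 * L)) ^ δ := Real.rpow_le_rpow (by linarith) hy2 hδ0
      _ = Real.exp (2 / 5 * L * δ) := by rw [← Real.exp_mul]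
      _ ≤ Real.exp (1 / 1000 * L) := by
          apply Real.exp_le_exp.2
          nlinarith
  have a5 : (200 : ℝ) ^ (5 * l) ≤ Real.exp (1 / 1000 * L) := by
    have e : (200 : ℝ) ^ (5 * l) ≤ 2 ^ (8 * (5 * l)) := by
      rw [pow_mul 2 8 (5 * l)]
      exact pow_le_pow_left₀ (by norm_num) (by norm_num) _
    refine le_trans e ?_
    refine le_trans (LOC_two_pow _) (Real.exp_le_exp.2 ?_)
    push_cast
    nlinarith
  have a6 : (1 + 250 * (l : ℝ) ^ 3 + 5 * l * L) * (5 * l) ≤ Real.exp (1 / 1000 * L) *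
      Real.exp (1 / 100 * L) := by
    have h1 : L ≤ 100 * Real.exp (1 / 100 * L) := by
      have := Real.add_one_le_exp (1 / 100 * L)
      linarith
    have h2 : 128000 * (l : ℝ) ^ 4 ≤ Real.exp (1 / 1000 * L) := by
      have := Real.add_one_le_exp (1 / 1000 * L)
      nlinarith
    have h3 : (1 + 250 * (l : ℝ) ^ 3 + 5 * l * L) ≤ 256 * (l : ℝ) ^ 3 * L := by
      have hl3 : (l : ℝ) ≤ (l : ℝ) ^ 3 := by
        have := pow_le_pow_right₀ hl' (show 1 ≤ 3 by norm_num)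
        simpa using this
      have hl31 : (1 : ℝ) ≤ (l : ℝ) ^ 3 := one_le_pow₀ hl'
      have hL1 : (10 : ℝ) ^ 3 ≤ L := by linarith
      have e1 : (l : ℝ) * L ≤ (l : ℝ) ^ 3 * L := mul_le_mul_of_nonneg_right hl3 (by linarith)
      have e2 : (l : ℝ) ^ 3 * 10 ^ 3 ≤ (l : ℝ) ^ 3 * L := mul_le_mul_of_nonneg_left hL1 (by positivity)
      nlinarith
    calc (1 + 250 * (l : ℝ) ^ 3 + 5 * l * L) * (5 * l) ≤ 256 * (l : ℝ) ^ 3 * L * (5 * l) :=
          mul_le_mul_of_nonneg_right h3 (by positivity)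
      _ = 1280 * (l : ℝ) ^ 4 * L := by ring
      _ ≤ 1280 * (l : ℝ) ^ 4 * (100 * Real.exp (1 / 100 * L)) :=
          mul_le_mul_of_nonneg_left h1 (by positivity)
      _ = 128000 * (l : ℝ) ^ 4 * Real.exp (1 / 100 * L) := by ring
      _ ≤ _ := mul_le_mul_of_nonneg_right h2 (Real.exp_pos _).le
  have a7 : ρ ≤ 3 * Real.exp (-(48 / 1000 * L)) := by
    refine le_trans hρ ?_
    have e1 : Real.exp (-(2 / 5 * L)) ≤ Real.exp (-(48 / 1000 * L)) :=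
      Real.exp_le_exp.2 (by linarith)
    have e2 : (1 + 250 * (l : ℝ) ^ 3 + 5 * l * L) * (5 * l) * 200 ^ (5 * l) *
        Real.exp (-(3 / 50 * L)) ≤ Real.exp (-(48 / 1000 * L)) := by
      calc (1 + 250 * (l : ℝ) ^ 3 + 5 * l * L) * (5 * l) * 200 ^ (5 * l) * Real.exp (-(3 / 50 * L))
          ≤ Real.exp (1 / 1000 * L) * Real.exp (1 / 100 * L) * Real.exp (1 / 1000 * L) *
            Real.exp (-(3 / 50 * L)) := by
            refine mul_le_mul_of_nonneg_right ?_ (Real.exp_pos _).le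
            exact mul_le_mul a6 a5 (by positivity) (by positivity)
        _ = Real.exp (-(48 / 1000 * L)) := by
            rw [← Real.exp_add, ← Real.exp_add, ← Real.exp_add]
            congr 1
            ring
    linarith
  have a8 : (3 : ℝ) ≤ Real.exp (1 / 100 * L) := by
    have := Real.add_one_le_exp (1 / 100 * L)
    linarith
  calc _ ≤ Real.exp (1 / 2000 * L) * Real.exp (1 / 2000 * L) * Real.exp (1 / 1000 * L) *
        Real.exp (1 / 1000 * L) * (Real.exp (1 / 100 * L) * Real.exp (-(48 / 1000 * L))) := by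
        refine mul_le_mul (mul_le_mul (mul_le_mul (mul_le_mul a1 a2 (by positivity)
          (Real.exp_pos _).le) a3 (by positivity) (by positivity)) a4 (by positivity)
          (by positivity)) ?_ hρ0 (by positivity)
        exact le_trans a7 (mul_le_mul_of_nonneg_right a8 (Real.exp_pos _).le)
    _ = Real.exp (-(35 / 1000 * L)) := by
        simp only [← Real.exp_add]
        congr 1
        ring
    _ ≤ _ := Real.exp_le_exp.2 (by linarith)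

theorem LOB_rho (j₀ l : ℕ) (L lam s y x T : ℝ) (hl : 1 ≤ l) (hs : s = 250 * (l : ℝ) ^ 3)
    (hL0 : 10 ≤ L) (hy1 : 1 ≤ y) (hy : y ≤ Real.exp (2 / 5 * L)) (hy2 : Real.exp (2 / 5 * L) / 2 ≤ y)
    (hT : T = Real.exp (lam * L)) (hx0 : 0 < x) (hx : x ≤ 50 * Real.exp L) (hj : 1 ≤ j₀)
    (hjk : j₀ ≤ 5 * l) (hj2 : (j₀ : ℝ) ≤ 5 * lam - 3 / 10) :
    (2 * (s * y ^ j₀) + 1 + 1 / (T / (2 * Real.pi * j₀ * x ^ j₀)) * (1 + Real.log (s * y ^ j₀))) /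
      (3 * s * y ^ j₀) ^ 2 ≤ 2 * Real.exp (-(2 / 5 * L)) +
        (1 + 250 * (l : ℝ) ^ 3 + 5 * l * L) * (5 * l) * 200 ^ (5 * l) * Real.exp (-(3 / 50 * L)) := by
  have hl' : (1 : ℝ) ≤ l := by exact_mod_cast hl
  have hl3 : (1 : ℝ) ≤ (l : ℝ) ^ 3 := one_le_pow₀ hl'
  have hs1 : 1 ≤ s := by rw [hs]; linarith
  have hj' : (1 : ℝ) ≤ j₀ := by exact_mod_cast hj
  have hjk' : (j₀ : ℝ) ≤ 5 * l := by exact_mod_cast hjk
  have hT0 : 0 < T := by rw [hT]; exact Real.exp_pos _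
  obtain ⟨Q, hQ⟩ : ∃ Q, Q = y ^ j₀ := ⟨_, rfl⟩
  have hQy : y ≤ Q := by
    rw [hQ]
    calc y = y ^ 1 := (pow_one y).symm
      _ ≤ y ^ j₀ := pow_le_pow_right₀ hy1 hj
  have hQ1 : 1 ≤ Q := le_trans hy1 hQy
  have hM1 : Q ≤ s * Q := by nlinarith
  rw [← hQ, add_div]
  have p1 : (2 * (s * Q) + 1) / (3 * s * Q) ^ 2 ≤ 2 * Real.exp (-(2 / 5 * L)) := by
    have h1 : (2 * (s * Q) + 1) / (3 * s * Q) ^ 2 ≤ 1 / y := by
      rw [div_le_div_iff₀ (by positivity) (by positivity)]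
      have h2 : 1 ≤ s * Q := le_trans hQ1 hM1
      have h3 : y ≤ s * Q := le_trans hQy hM1
      nlinarith
    have h4 : 1 / y ≤ 2 * Real.exp (-(2 / 5 * L)) := by
      rw [Real.exp_neg, div_le_iff₀ (by linarith)]
      have he := Real.exp_pos (2 / 5 * L)
      have : 2 * (Real.exp (2 / 5 * L))⁻¹ * y = y / (Real.exp (2 / 5 * L) / 2) := by
        field_simp
      rw [this, le_div_iff₀ (by positivity), one_mul]
      exact hy2
    exact le_trans h1 h4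
  have p2 : x ^ j₀ ≤ T * Q ^ 2 * (200 ^ j₀ * Real.exp (-(3 / 50 * L))) := by
    have h1 : x ^ j₀ ≤ 50 ^ j₀ * Real.exp (j₀ * L) := by
      calc x ^ j₀ ≤ (50 * Real.exp L) ^ j₀ := pow_le_pow_left₀ hx0.le hx _
        _ = 50 ^ j₀ * Real.exp (j₀ * L) := by rw [mul_pow, ← Real.exp_nat_mul]
    have h2 : Real.exp (j₀ * (4 / 5 * L)) / 4 ^ j₀ ≤ Q ^ 2 := by
      have h3 : (Real.exp (2 / 5 * L) / 2) ^ j₀ ≤ Q := by
        rw [hQ]
        exact pow_le_pow_left₀ (by positivity) hy2 _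
      have h4 : ((Real.exp (2 / 5 * L) / 2) ^ j₀) ^ 2 = Real.exp (j₀ * (4 / 5 * L)) / 4 ^ j₀ := by
        have a : (Real.exp (2 / 5 * L) / 2) ^ 2 = Real.exp (4 / 5 * L) / 4 := by
          have b : Real.exp (4 / 5 * L) = Real.exp (2 / 5 * L) * Real.exp (2 / 5 * L) := by
            rw [← Real.exp_add]
            congr 1
            ring
          rw [b]
          ring
        rw [← pow_mul, mul_comm j₀ 2, pow_mul, a, div_pow, ← Real.exp_nat_mul]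
      rw [← h4]
      exact pow_le_pow_left₀ (by positivity) h3 2
    calc x ^ j₀ ≤ 50 ^ j₀ * Real.exp (j₀ * L) := h1
      _ ≤ 50 ^ j₀ * Real.exp (lam * L + j₀ * (4 / 5 * L) + -(3 / 50 * L)) := by
          refine mul_le_mul_of_nonneg_left (Real.exp_le_exp.2 ?_) (by positivity)
          nlinarith
      _ = T * (Real.exp (j₀ * (4 / 5 * L)) / 4 ^ j₀) * (200 ^ j₀ * Real.exp (-(3 / 50 * L))) := by
          rw [Real.exp_add, Real.exp_add, hT]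
          have : (200 : ℝ) ^ j₀ = 50 ^ j₀ * 4 ^ j₀ := by rw [← mul_pow]; norm_num
          rw [this]
          field_simp
      _ ≤ T * Q ^ 2 * (200 ^ j₀ * Real.exp (-(3 / 50 * L))) := by
          refine mul_le_mul_of_nonneg_right ?_ (by positivity)
          exact mul_le_mul_of_nonneg_left h2 hT0.le
  have p3 : 0 ≤ 1 + Real.log (s * Q) := by
    have := Real.log_nonneg (le_trans hQ1 hM1)
    linarith
  have p4 : 1 + Real.log (s * Q) ≤ 1 + 250 * (l : ℝ) ^ 3 + 5 * l * L := by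
    rw [Real.log_mul (by positivity) (by positivity), hQ, Real.log_pow]
    have h1 : Real.log s ≤ s := by
      have := Real.log_le_sub_one_of_pos (show 0 < s by linarith)
      linarith
    have h2 : Real.log y ≤ 2 / 5 * L := by
      rw [Real.log_le_iff_le_exp (by linarith)]
      exact hy
    have h3 : (j₀ : ℝ) * Real.log y ≤ 5 * l * L := by
      have h0 : 0 ≤ Real.log y := Real.log_nonneg hy1
      have : Real.log y ≤ L := by linarith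
      exact mul_le_mul hjk' this h0 (by positivity)
    rw [← hs]
    linarith
  have p5 : 1 / (T / (2 * Real.pi * j₀ * x ^ j₀)) * (1 + Real.log (s * Q)) / (3 * s * Q) ^ 2 ≤
      (1 + 250 * (l : ℝ) ^ 3 + 5 * l * L) * (5 * l) * 200 ^ (5 * l) * Real.exp (-(3 / 50 * L)) := by
    have e1 : 1 / (T / (2 * Real.pi * j₀ * x ^ j₀)) * (1 + Real.log (s * Q)) / (3 * s * Q) ^ 2 =
        (1 + Real.log (s * Q)) * j₀ * (x ^ j₀ / (T * Q ^ 2)) * (2 * Real.pi / 9 / s ^ 2) := by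
      field_simp
      ring
    have e2 : x ^ j₀ / (T * Q ^ 2) ≤ 200 ^ (5 * l) * Real.exp (-(3 / 50 * L)) := by
      rw [div_le_iff₀ (by positivity)]
      calc x ^ j₀ ≤ T * Q ^ 2 * (200 ^ j₀ * Real.exp (-(3 / 50 * L))) := p2
        _ ≤ T * Q ^ 2 * (200 ^ (5 * l) * Real.exp (-(3 / 50 * L))) := by
            refine mul_le_mul_of_nonneg_left ?_ (by positivity)
            refine mul_le_mul_of_nonneg_right ?_ (Real.exp_pos _).le
            exact pow_le_pow_right₀ (by norm_num) hjk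
        _ = _ := by ring
    have e3 : 2 * Real.pi / 9 / s ^ 2 ≤ 1 := by
      rw [div_le_one (by positivity)]
      have := Real.pi_le_four
      nlinarith
    rw [e1]
    calc (1 + Real.log (s * Q)) * j₀ * (x ^ j₀ / (T * Q ^ 2)) * (2 * Real.pi / 9 / s ^ 2)
        ≤ (1 + 250 * (l : ℝ) ^ 3 + 5 * l * L) * (5 * l) *
          (200 ^ (5 * l) * Real.exp (-(3 / 50 * L))) * 1 := by
          refine mul_le_mul (mul_le_mul (mul_le_mul p4 hjk' (by positivity) (by positivity)) e2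
            (by positivity) (by positivity)) e3 (by positivity) (by positivity)
      _ = _ := by ring
  exact add_le_add p1 p5

theorem LOB_main (hVMV : CH.VMV_stmt) (hDH : CH.DH_stmt) (hTJ : CH.TJ_stmt) (l N Y : ℕ) (α : ℕ → ℝ) (T ρ' : ℝ)
    (hl : 1 ≤ l) (hN : 1 ≤ N) (ht1 : √(N : ℝ) ≤ T) (ht2 : T ≤ (N : ℝ) ^ l) (hρ'0 : 0 < ρ') (hρ'1 : ρ' ≤ 1)
    (ha1 : ∀ j ∈ Icc 1 (5 * l), |α j| ≤ T / (N : ℝ) ^ j)
    (ha2 : ∀ j ∈ Icc 1 (5 * l), ρ' * (T / (2 * Real.pi * j * (50 * N) ^ j)) ≤ |α j|)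
    (hL : 10 ^ 16 * (l : ℝ) ^ 9 < Real.log N)
    (hY : Y = ⌊(N : ℝ) ^ (2 / 5 : ℝ)⌋₊) :
    ‖∑ u ∈ Ioc 0 Y, ∑ v ∈ Ioc 0 Y,
      ee (∑ j ∈ Icc 1 (5 * l), α j * ((u : ℝ) * v) ^ j)‖ ≤
      (Y : ℝ) ^ 2 * Real.exp (-(3 / 100 * Real.log N / (250000 * (l : ℝ) ^ 6))) / ρ' := by
  have hl' : (1 : ℝ) ≤ l := by exact_mod_cast hl
  have hq0 : (1 : ℝ) ≤ (l : ℝ) ^ 9 := one_le_pow₀ hl'
  have hq3 : (l : ℝ) ^ 3 ≤ (l : ℝ) ^ 9 := pow_le_pow_right₀ hl' (by norm_num)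
  have hN0 : (0 : ℝ) < N := by exact_mod_cast hN
  obtain ⟨L, hLd⟩ : ∃ L, L = Real.log N := ⟨_, rfl⟩
  rw [← hLd] at hL ⊢
  have hL0 : (10 : ℝ) ^ 16 < L := by nlinarith
  have hNe : (N : ℝ) = Real.exp L := by rw [hLd, Real.exp_log hN0]
  have hNy : (N : ℝ) ^ (2 / 5 : ℝ) = Real.exp (2 / 5 * L) := by
    rw [Real.rpow_def_of_pos hN0, ← hLd]
    congr 1
    ring
  rw [hNy] at hY
  obtain ⟨y, hyd⟩ : ∃ y : ℝ, y = (Y : ℝ) := ⟨_, rfl⟩
  have hy : y ≤ Real.exp (2 / 5 * L) := by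
    rw [hyd, hY]
    exact Nat.floor_le (Real.exp_pos _).le
  have hbig : (2 : ℝ) ≤ Real.exp (2 / 5 * L) := by
    have := Real.add_one_le_exp (2 / 5 * L)
    linarith
  have hy2 : Real.exp (2 / 5 * L) / 2 ≤ y := by
    have := Nat.lt_floor_add_one (Real.exp (2 / 5 * L))
    rw [← hY, ← hyd] at this
    linarith
  have hy1 : 1 ≤ y := by linarith
  have hY1 : 1 ≤ Y := by
    have : (1 : ℝ) ≤ (Y : ℝ) := by rw [← hyd]; exact hy1
    exact_mod_cast this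
  have ht0 : 0 < T := lt_of_lt_of_le (Real.sqrt_pos.2 hN0) ht1
  obtain ⟨lam, hlam⟩ : ∃ lam, lam = Real.log T / L := ⟨_, rfl⟩
  have hT : T = Real.exp (lam * L) := by
    rw [hlam, div_mul_cancel₀ _ (by linarith), Real.exp_log ht0]
  have hlam1 : 1 / 2 ≤ lam := by
    rw [hlam, le_div_iff₀ (by linarith)]
    have := Real.log_le_log (Real.sqrt_pos.2 hN0) ht1
    rw [Real.log_sqrt hN0.le, ← hLd] at this
    linarith
  have hlam2 : lam ≤ l := by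
    rw [hlam, div_le_iff₀ (by linarith)]
    have := Real.log_le_log ht0 ht2
    rwa [Real.log_pow, ← hLd] at this
  obtain ⟨j₀, hj₀⟩ : ∃ j₀, j₀ = ⌈5 * lam / 3 + 3 / 10⌉₊ := ⟨_, rfl⟩
  have hj1 : 5 * lam / 3 + 3 / 10 ≤ (j₀ : ℝ) := by rw [hj₀]; exact Nat.le_ceil _
  have hj2 : (j₀ : ℝ) ≤ 5 * lam - 3 / 10 := by
    have := Nat.ceil_lt_add_one (show 0 ≤ 5 * lam / 3 + 3 / 10 by linarith)
    rw [← hj₀] at this
    linarith
  have hj : 1 ≤ j₀ := by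
    have : (0 : ℝ) < (j₀ : ℝ) := by linarith
    exact_mod_cast this
  have hjk : j₀ ≤ 5 * l := by
    have : (j₀ : ℝ) ≤ ((5 * l : ℕ) : ℝ) := by push_cast; linarith
    exact_mod_cast this
  have hj' : (1 : ℝ) ≤ j₀ := by exact_mod_cast hj
  have hjm : j₀ ∈ Icc 1 (5 * l) := Finset.mem_Icc.2 ⟨hj, hjk⟩
  have hb1 := ha1 j₀ hjm
  have hb2 := ha2 j₀ hjm
  have hα0 : α j₀ ≠ 0 := by
    rw [← abs_pos]
    refine lt_of_lt_of_le ?_ hb2
    positivity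
  obtain ⟨s, hs⟩ : ∃ s : ℕ, s = 5 * l * (2 * (5 * l) ^ 2) := ⟨_, rfl⟩
  have hs' : (s : ℝ) = 250 * (l : ℝ) ^ 3 := by
    rw [hs]
    push_cast
    ring
  have hs1 : 1 ≤ s := by
    have : (1 : ℝ) ≤ (s : ℝ) := by
      rw [hs']
      have : (1 : ℝ) ≤ (l : ℝ) ^ 3 := one_le_pow₀ hl'
      linarith
    exact_mod_cast this
  have hα2 : |α j₀| * (s * Y ^ j₀ : ℕ) ≤ 1 / 2 := by
    push_cast
    rw [← hyd]
    have h1 : T * y ^ j₀ ≤ Real.exp (j₀ * L) * Real.exp (-(18 / 100 * L)) := by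
      calc T * y ^ j₀ ≤ Real.exp (lam * L) * (Real.exp (2 / 5 * L)) ^ j₀ := by
            rw [hT]
            exact mul_le_mul_of_nonneg_left (pow_le_pow_left₀ (by linarith) hy _) (Real.exp_pos _).le
        _ = Real.exp (lam * L + j₀ * (2 / 5 * L)) := by rw [← Real.exp_nat_mul, ← Real.exp_add]
        _ ≤ Real.exp (j₀ * L + -(18 / 100 * L)) := by
            apply Real.exp_le_exp.2
            nlinarith
        _ = _ := Real.exp_add _ _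
    have h2 : (s : ℝ) * Real.exp (-(18 / 100 * L)) ≤ 1 / 2 := by
      rw [Real.exp_neg, ← div_eq_mul_inv, div_le_iff₀ (Real.exp_pos _)]
      have := Real.add_one_le_exp (18 / 100 * L)
      rw [hs']
      linarith
    have h3 : Real.exp (j₀ * L) = (N : ℝ) ^ j₀ := by
      rw [Real.exp_nat_mul, ← hNe]
    have h4 : (0 : ℝ) < (N : ℝ) ^ j₀ := pow_pos hN0 _
    rw [h3] at h1
    calc |α j₀| * (s * y ^ j₀) ≤ T / (N : ℝ) ^ j₀ * (s * y ^ j₀) :=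
          mul_le_mul_of_nonneg_right hb1 (by positivity)
      _ = s * (T * y ^ j₀) / (N : ℝ) ^ j₀ := by ring
      _ ≤ s * ((N : ℝ) ^ j₀ * Real.exp (-(18 / 100 * L))) / (N : ℝ) ^ j₀ :=
          div_le_div_of_nonneg_right (mul_le_mul_of_nonneg_left h1 (Nat.cast_nonneg _)) h4.le
      _ = s * Real.exp (-(18 / 100 * L)) := by
          field_simp
      _ ≤ 1 / 2 := h2
  obtain ⟨ρ, hρ⟩ : ∃ ρ : ℝ, ρ = (2 * (s * y ^ j₀) + 1 +
    1 / |α j₀| * (1 + Real.log (s * y ^ j₀))) / (3 * s * y ^ j₀) ^ 2 := ⟨_, rfl⟩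
  have hρ0 : 0 ≤ ρ := by
    rw [hρ]
    have h1 : 1 ≤ s * y ^ j₀ := one_le_mul_of_one_le_of_one_le (by exact_mod_cast hs1)
      (one_le_pow₀ hy1)
    have := Real.log_nonneg h1
    positivity
  have hρ1 := LOB_rho j₀ l L lam s y (50 * N) T hl hs' (by linarith) hy1 hy hy2 hT (by positivity)
    (by rw [← hNe]) hj hjk hj2
  have hρ2 : ρ' * ρ ≤ (2 * (s * y ^ j₀) + 1 + 1 / (T / (2 * Real.pi * j₀ * (50 * N) ^ j₀)) *
      (1 + Real.log (s * y ^ j₀))) / (3 * s * y ^ j₀) ^ 2 := by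
    have h1 : 1 ≤ s * y ^ j₀ := one_le_mul_of_one_le_of_one_le (by exact_mod_cast hs1)
      (one_le_pow₀ hy1)
    have h2 := Real.log_nonneg h1
    have h3 : 0 < |α j₀| := abs_pos.2 hα0
    have h4 : ρ' * (1 / |α j₀|) ≤ 1 / (T / (2 * Real.pi * j₀ * (50 * N) ^ j₀)) := by
      have h5 : 0 < T / (2 * Real.pi * j₀ * (50 * N) ^ j₀) := by positivity
      rw [mul_one_div, div_le_div_iff₀ h3 h5, one_mul]
      exact hb2
    rw [hρ, ← mul_div_assoc]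
    apply div_le_div_of_nonneg_right _ (by positivity)
    have h6 : ρ' * (1 / |α j₀|) * (1 + Real.log (s * y ^ j₀)) ≤
        1 / (T / (2 * Real.pi * j₀ * (50 * N) ^ j₀)) * (1 + Real.log (s * y ^ j₀)) :=
      mul_le_mul_of_nonneg_right h4 (by linarith)
    have h7 : ρ' * (2 * (s * y ^ j₀) + 1) ≤ 2 * (s * y ^ j₀) + 1 :=
      mul_le_of_le_one_left (by linarith) hρ'1
    calc ρ' * (2 * (s * y ^ j₀) + 1 + 1 / |α j₀| * (1 + Real.log (s * y ^ j₀))) =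
        ρ' * (2 * (s * y ^ j₀) + 1) + ρ' * (1 / |α j₀|) * (1 + Real.log (s * y ^ j₀)) := by ring
      _ ≤ _ := add_le_add h7 h6
  have hPP := LOC_P hTJ s (5 * l) Y j₀ α hs1 hY1 hj hjk hα0 hα2
  rw [← hyd, ← hρ] at hPP
  have hD := hDH s (5 * l) Y α hs1 hY1
  have hV2 := hVMV (5 * l) (2 * (2 * (5 * l) ^ 2)) Y (by omega) (by
    have : 0 < (5 * l) ^ 2 := by positivity
    omega) hY1
  have hV1 := hVMV (5 * l) (2 * (5 * l) ^ 2) Y (by omega) (by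
    have : 0 < (5 * l) ^ 2 := by positivity
    omega) hY1
  have hs2 : 5 * l * (2 * (2 * (5 * l) ^ 2)) = 2 * s := by rw [hs]; ring
  rw [hs2] at hV2
  rw [← hs] at hV1
  have hd1 := LOC_delta (5 * l) (2 * (5 * l) ^ 2) (by omega) le_rfl
  have hd2 := LOC_delta (5 * l) (2 * (2 * (5 * l) ^ 2)) (by omega) (by omega)
  have hk1 : (0 : ℝ) ≤ 1 - 1 / ((5 * l : ℕ) : ℝ) := by
    have : 1 / ((5 * l : ℕ) : ℝ) ≤ 1 := by
      rw [div_le_one (by positivity)]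
      push_cast
      linarith
    linarith
  obtain ⟨δ₁, hδ₁⟩ : ∃ δ₁ : ℝ, δ₁ = ((5 * l : ℕ) : ℝ) ^ 2 / 2 *
    (1 - 1 / ((5 * l : ℕ) : ℝ)) ^ (2 * (5 * l) ^ 2) := ⟨_, rfl⟩
  obtain ⟨δ₂, hδ₂⟩ : ∃ δ₂ : ℝ, δ₂ = ((5 * l : ℕ) : ℝ) ^ 2 / 2 *
    (1 - 1 / ((5 * l : ℕ) : ℝ)) ^ (2 * (2 * (5 * l) ^ 2)) := ⟨_, rfl⟩
  have hδ₁0 : 0 ≤ δ₁ := by rw [hδ₁]; positivity
  have hδ₂0 : 0 ≤ δ₂ := by rw [hδ₂]; positivity
  rw [← hδ₁] at hd1 hV1
  rw [← hδ₂] at hd2 hV2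
  have hy0 : 0 < y := by linarith
  rw [← hyd] at hD hV1 hV2
  obtain ⟨E1, hE1⟩ : ∃ E1 : ℝ, E1 = 2 * ((5 * l : ℕ) : ℝ) * ((2 * (5 * l) ^ 2 : ℕ) : ℝ) -
    ((5 * l : ℕ) : ℝ) * (((5 * l : ℕ) : ℝ) + 1) / 2 + δ₁ := ⟨_, rfl⟩
  obtain ⟨E2, hE2⟩ : ∃ E2 : ℝ, E2 = 2 * ((5 * l : ℕ) : ℝ) * ((2 * (2 * (5 * l) ^ 2) : ℕ) : ℝ) -
    ((5 * l : ℕ) : ℝ) * (((5 * l : ℕ) : ℝ) + 1) / 2 + δ₂ := ⟨_, rfl⟩
  rw [← hE1] at hV1
  rw [← hE2] at hV2
  have hcomb : y ^ (8 * s ^ 2 - 6 * s) * y ^ E2 * y ^ E1 * y ^ (5 * l * (5 * l + 1)) =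
      y ^ (8 * s ^ 2) * y ^ (δ₁ + δ₂) := by
    rw [← Real.rpow_natCast y (8 * s ^ 2 - 6 * s), ← Real.rpow_natCast y (5 * l * (5 * l + 1)),
      ← Real.rpow_natCast y (8 * s ^ 2), ← Real.rpow_add hy0, ← Real.rpow_add hy0,
      ← Real.rpow_add hy0, ← Real.rpow_add hy0]
    congr 1
    rw [Nat.cast_sub (by nlinarith), hE1, hE2]
    push_cast
    rw [hs']
    ring
  have hbr := LOB_brk l hl L (ρ' * ρ) y (δ₁ + δ₂) hL hy1 hy (by linarith) (by linarith)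
    (mul_nonneg hρ'0.le hρ0) (le_trans hρ2 hρ1)
  obtain ⟨Z, hZ⟩ : ∃ Z : ℝ, Z = ‖∑ u ∈ Ioc 0 Y, ∑ v ∈ Ioc 0 Y,
    ee (∑ j ∈ Icc 1 (5 * l), α j * ((u : ℝ) * v) ^ j)‖ := ⟨_, rfl⟩
  have hZ0 : 0 ≤ Z := by rw [hZ]; exact norm_nonneg _
  rw [← hZ] at hD ⊢
  rw [← hyd]
  have hfin0 : Z ^ (4 * s ^ 2) ≤ y ^ (8 * s ^ 2 - 6 * s) *
          (2 ^ (100 * (5 * l) ^ 5 * (2 * (2 * (5 * l) ^ 2)) ^ 2) * y ^ E2) *
          (2 ^ (100 * (5 * l) ^ 5 * (2 * (5 * l) ^ 2) ^ 2) * y ^ E1) *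
          ((3 * (s : ℝ)) ^ (2 * (5 * l)) * y ^ (5 * l * (5 * l + 1)) * ρ) := by
    calc Z ^ (4 * s ^ 2) ≤ _ := hD
      _ ≤ y ^ (8 * s ^ 2 - 6 * s) *
          (2 ^ (100 * (5 * l) ^ 5 * (2 * (2 * (5 * l) ^ 2)) ^ 2) * y ^ E2) *
          (2 ^ (100 * (5 * l) ^ 5 * (2 * (5 * l) ^ 2) ^ 2) * y ^ E1) *
          ((3 * (s : ℝ)) ^ (2 * (5 * l)) * y ^ (5 * l * (5 * l + 1)) * ρ) := by
          refine mul_le_mul (mul_le_mul (mul_le_mul_of_nonneg_left hV2 (by positivity)) hV1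
            (Nat.cast_nonneg _) (by positivity)) hPP
            (Finset.prod_nonneg fun j _ => Finset.sum_nonneg fun μ _ =>
              LOC_gb_nonneg _ _ (Nat.cast_nonneg _)) (by positivity)
  have hfin : ρ' * Z ^ (4 * s ^ 2) ≤ y ^ (8 * s ^ 2) * Real.exp (-(3 / 100 * L)) := by
    calc ρ' * Z ^ (4 * s ^ 2) ≤ ρ' * (y ^ (8 * s ^ 2 - 6 * s) *
          (2 ^ (100 * (5 * l) ^ 5 * (2 * (2 * (5 * l) ^ 2)) ^ 2) * y ^ E2) *
          (2 ^ (100 * (5 * l) ^ 5 * (2 * (5 * l) ^ 2) ^ 2) * y ^ E1) *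
          ((3 * (s : ℝ)) ^ (2 * (5 * l)) * y ^ (5 * l * (5 * l + 1)) * ρ)) :=
          mul_le_mul_of_nonneg_left hfin0 hρ'0.le
      _ = (y ^ (8 * s ^ 2 - 6 * s) * y ^ E2 * y ^ E1 * y ^ (5 * l * (5 * l + 1))) *
          (2 ^ (100 * (5 * l) ^ 5 * (2 * (2 * (5 * l) ^ 2)) ^ 2) *
            2 ^ (100 * (5 * l) ^ 5 * (2 * (5 * l) ^ 2) ^ 2) *
            (3 * (s : ℝ)) ^ (2 * (5 * l)) * (ρ' * ρ)) := by ring
      _ = y ^ (8 * s ^ 2) * (2 ^ (100 * (5 * l) ^ 5 * (2 * (2 * (5 * l) ^ 2)) ^ 2) *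
            2 ^ (100 * (5 * l) ^ 5 * (2 * (5 * l) ^ 2) ^ 2) *
            (3 * (250 * (l : ℝ) ^ 3)) ^ (2 * (5 * l)) * y ^ (δ₁ + δ₂) * (ρ' * ρ)) := by
          rw [hcomb, hs']
          ring
      _ ≤ _ := mul_le_mul_of_nonneg_left hbr (by positivity)
  have hm : ((4 * s ^ 2 : ℕ) : ℝ) = 250000 * (l : ℝ) ^ 6 := by
    push_cast
    rw [hs']
    ring
  have hm0 : 4 * s ^ 2 ≠ 0 := by positivity
  rw [← pow_le_pow_iff_left₀ hZ0 (by positivity) hm0]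
  have hq1 : Z ^ (4 * s ^ 2) ≤ y ^ (8 * s ^ 2) * Real.exp (-(3 / 100 * L)) / ρ' := by
    rw [le_div_iff₀ hρ'0, mul_comm]
    exact hfin
  have hq2 : y ^ (8 * s ^ 2) * Real.exp (-(3 / 100 * L)) / ρ' ≤
      y ^ (8 * s ^ 2) * Real.exp (-(3 / 100 * L)) / ρ' ^ (4 * s ^ 2) := by
    apply div_le_div_of_nonneg_left (by positivity) (by positivity)
    exact pow_le_of_le_one hρ'0.le hρ'1 hm0
  refine le_trans hq1 (le_trans hq2 (le_of_eq ?_))
  rw [div_pow, mul_pow, ← pow_mul, ← Real.exp_nat_mul, hm]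
  have e1 : 2 * (4 * s ^ 2) = 8 * s ^ 2 := by ring
  rw [e1]
  congr 3
  have : (l : ℝ) ^ 6 ≠ 0 := by positivity
  field_simp

/-- LOB. -/
theorem LOB (hVMV : CH.VMV_stmt) (hDH : CH.DH_stmt) (hTJ : CH.TJ_stmt) : LOB_stmt := by
  refine ⟨10 ^ 8, by norm_num, ?_⟩
  intro l N α β p q ρ hl hN hρ0 hρ1 ht1 ht2 hnd
  obtain ⟨hp1, hp2, hq1, hq2, hnd⟩ := hnd
  obtain ⟨T, hTd⟩ : ∃ T, T = max |α| |β| := ⟨_, rfl⟩
  rw [← hTd] at ht1 ht2 hnd
  have hl' : (1 : ℝ) ≤ l := by exact_mod_cast hl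
  have hN0 : (0 : ℝ) < N := by exact_mod_cast hN
  obtain ⟨L, hLd⟩ : ∃ L, L = Real.log N := ⟨_, rfl⟩
  have hNe : (N : ℝ) = Real.exp L := by rw [hLd, Real.exp_log hN0]
  have hL00 : 0 ≤ L := by rw [hLd]; exact Real.log_nonneg (by exact_mod_cast hN)
  have hNr : ∀ a : ℝ, (N : ℝ) ^ a = Real.exp (a * L) := by
    intro a
    rw [Real.rpow_def_of_pos hN0, ← hLd, mul_comm]
  obtain ⟨Y, hY⟩ : ∃ Y : ℕ, Y = ⌊(N : ℝ) ^ (2 / 5 : ℝ)⌋₊ := ⟨_, rfl⟩
  rw [← hY]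
  have hY2 : (Y : ℝ) ≤ Real.exp (2 / 5 * L) := by
    rw [hY, hNr]
    exact Nat.floor_le (Real.exp_pos _).le
  have hYY : (Y : ℝ) ^ 2 ≤ Real.exp (4 / 5 * L) := by
    have e : Real.exp (4 / 5 * L) = Real.exp (2 / 5 * L) ^ 2 := by
      rw [← Real.exp_nat_mul]
      congr 1
      push_cast
      ring
    rw [e]
    exact pow_le_pow_left₀ (Nat.cast_nonneg _) hY2 2
  have h108 : ((10 ^ 8 : ℕ) : ℝ) = 10 ^ 8 := by norm_num
  rw [hNr, hNr, h108]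
  rcases le_or_gt L (10 ^ 16 * (l : ℝ) ^ 9) with hL | hL
  · have h1 : ‖∑ u ∈ Ioc 0 Y, ∑ v ∈ Ioc 0 Y, nit α |p + (u : ℝ) * v| * nit β |q + (u : ℝ) * v|‖ ≤
        (Y : ℝ) ^ 2 := by
      refine le_trans (norm_sum_le _ _) ?_
      refine le_trans (Finset.sum_le_sum fun u _ => norm_sum_le _ _) ?_
      simp only [norm_mul, LOC_nit_norm, Finset.sum_const, Nat.card_Ioc, Nat.sub_zero, nsmul_eq_mul, mul_one]
      rw [sq]
    have h2 : 1 ≤ Real.exp (10 ^ 8 * (l : ℝ) ^ 3) * Real.exp (-(1 / (10 ^ 8 * (l : ℝ) ^ 6)) * L) := by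
      rw [← Real.exp_add]
      apply Real.one_le_exp
      have h6 : (0 : ℝ) < (l : ℝ) ^ 6 := by positivity
      have : 1 / (10 ^ 8 * (l : ℝ) ^ 6) * L ≤ 10 ^ 8 * (l : ℝ) ^ 3 := by
        rw [div_mul_eq_mul_div, div_le_iff₀ (by positivity)]
        nlinarith
      linarith
    have h3 : 1 ≤ Real.exp (10 ^ 8 * (l : ℝ) ^ 3) * Real.exp (-(1 / (10 ^ 8 * (l : ℝ) ^ 6)) * L) / ρ := by
      rw [le_div_iff₀ hρ0, one_mul]
      exact le_trans hρ1 h2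
    calc _ ≤ (Y : ℝ) ^ 2 := h1
      _ ≤ Real.exp (4 / 5 * L) * 1 := by rw [mul_one]; exact hYY
      _ ≤ _ := mul_le_mul_of_nonneg_left h3 (Real.exp_pos _).le
  · have hq0 : (1 : ℝ) ≤ (l : ℝ) ^ 9 := one_le_pow₀ hl'
    have hL0 : (10 : ℝ) ^ 16 < L := by nlinarith
    have hp0 : p ≠ 0 := abs_pos.1 (lt_of_lt_of_le hN0 hp1)
    have hqq0 : q ≠ 0 := abs_pos.1 (lt_of_lt_of_le hN0 hq1)
    have hαT : |α| ≤ T := by rw [hTd]; exact le_max_left _ _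
    have hβT : |β| ≤ T := by rw [hTd]; exact le_max_right _ _
    have hT0 : 0 ≤ T := le_trans (abs_nonneg _) hαT
    obtain ⟨c, hc⟩ : ∃ c : ℕ → ℝ, c = fun j : ℕ => -(-1) ^ j * α / (2 * Real.pi * j * p ^ j) +
      -(-1) ^ j * β / (2 * Real.pi * j * q ^ j) := ⟨_, rfl⟩
    have hcj : ∀ j ∈ Icc 1 (5 * l), |c j| = |α / p ^ j + β / q ^ j| / (2 * Real.pi * j) := by
      intro j hj
      have hj1 : (1 : ℝ) ≤ j := by exact_mod_cast (Finset.mem_Icc.1 hj).1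
      have hpj : p ^ j ≠ 0 := pow_ne_zero _ hp0
      have hqj : q ^ j ≠ 0 := pow_ne_zero _ hqq0
      have e1 : c j = -(-1) ^ j * ((α / p ^ j + β / q ^ j) / (2 * Real.pi * j)) := by
        rw [hc]
        have := Real.pi_pos
        field_simp
        ring
      have e2 : |(-(-1 : ℝ) ^ j)| = 1 := by rw [abs_neg, abs_pow, abs_neg, abs_one, one_pow]
      rw [e1, abs_mul, e2, one_mul, abs_div, abs_of_pos (show 0 < 2 * Real.pi * (j : ℝ) by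
        have := Real.pi_pos
        positivity)]
    have ha1 : ∀ j ∈ Icc 1 (5 * l), |c j| ≤ T / (N : ℝ) ^ j := by
      intro j hj
      have hj1 : (1 : ℝ) ≤ j := by exact_mod_cast (Finset.mem_Icc.1 hj).1
      rw [hcj j hj]
      have hNj : (0 : ℝ) < (N : ℝ) ^ j := pow_pos hN0 _
      have e1 : |α / p ^ j| ≤ T / (N : ℝ) ^ j := by
        rw [abs_div, abs_pow]
        exact div_le_div₀ hT0 hαT hNj (pow_le_pow_left₀ hN0.le hp1 _)
      have e2 : |β / q ^ j| ≤ T / (N : ℝ) ^ j := by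
        rw [abs_div, abs_pow]
        exact div_le_div₀ hT0 hβT hNj (pow_le_pow_left₀ hN0.le hq1 _)
      have e3 := abs_add_le (α / p ^ j) (β / q ^ j)
      have hpi := Real.pi_gt_three
      rw [div_le_iff₀ (by positivity)]
      have e4 : 0 ≤ T / (N : ℝ) ^ j := by positivity
      have e5 : 2 ≤ 2 * Real.pi * (j : ℝ) := by nlinarith
      nlinarith
    have ha2 : ∀ j ∈ Icc 1 (5 * l), ρ * (T / (2 * Real.pi * j * (50 * N) ^ j)) ≤ |c j| := by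
      intro j hj
      have hj1 : (1 : ℝ) ≤ j := by exact_mod_cast (Finset.mem_Icc.1 hj).1
      rw [hcj j hj]
      have hpi := Real.pi_pos
      have e1 : ρ * (T / (2 * Real.pi * j * (50 * N) ^ j)) = ρ * T / (50 * (N : ℝ)) ^ j / (2 * Real.pi * j) := by
        field_simp
      rw [e1]
      exact div_le_div_of_nonneg_right (hnd j hj) (by positivity)
    have hmain := LOB_main hVMV hDH hTJ l N Y c T ρ hl hN ht1 ht2 hρ0 hρ1 ha1 ha2
      (by rw [← hLd]; exact hL) hY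
    rw [← hLd] at hmain
    obtain ⟨a, ha⟩ : ∃ a : ℕ → ℕ → ℂ, a = fun u v : ℕ =>
      ee (∑ j ∈ Icc 1 (5 * l), c j * ((u : ℝ) * v) ^ j) := ⟨_, rfl⟩
    have hterm : ∀ u ∈ Ioc 0 Y, ∀ v ∈ Ioc 0 Y,
        ‖nit α |p + (u : ℝ) * v| * nit β |q + (u : ℝ) * v| - nit α |p| * nit β |q| * a u v‖ ≤
          4 * Real.exp (-(1 / 5 * L)) := by
      intro u hu v hv
      have hu1 : (u : ℝ) ≤ Y := by exact_mod_cast (Finset.mem_Ioc.1 hu).2
      have hv1 : (v : ℝ) ≤ Y := by exact_mod_cast (Finset.mem_Ioc.1 hv).2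
      have hz : ∀ x : ℝ, (N : ℝ) ≤ |x| → |(u : ℝ) * v / x| ≤ Real.exp (-(1 / 5 * L)) := by
        intro x hx
        have hx0 : 0 < |x| := lt_of_lt_of_le hN0 hx
        rw [abs_div, div_le_iff₀ hx0, abs_of_nonneg (show 0 ≤ (u : ℝ) * v by positivity)]
        calc (u : ℝ) * v ≤ (Y : ℝ) * Y := mul_le_mul hu1 hv1 (Nat.cast_nonneg _) (Nat.cast_nonneg _)
          _ = (Y : ℝ) ^ 2 := by ring
          _ ≤ Real.exp (4 / 5 * L) := hYY
          _ = Real.exp (-(1 / 5 * L)) * Real.exp L := by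
              rw [← Real.exp_add]
              congr 1
              ring
          _ ≤ Real.exp (-(1 / 5 * L)) * |x| := by
              rw [← hNe]
              exact mul_le_mul_of_nonneg_left hx (Real.exp_pos _).le
      have hhalf : Real.exp (-(1 / 5 * L)) ≤ 1 / 2 := by
        rw [Real.exp_neg, inv_eq_one_div]
        apply one_div_le_one_div_of_le (by norm_num)
        have := Real.add_one_le_exp (1 / 5 * L)
        linarith
      have ht2' : T ≤ Real.exp (l * L) := by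
        rw [Real.exp_nat_mul, ← hNe]
        exact ht2
      have hone : ∀ (t x : ℝ), |t| ≤ T → (N : ℝ) ≤ |x| → x ≠ 0 →
          ‖nit t |x + (u : ℝ) * v| - nit t |x| * ee (∑ j ∈ Icc 1 (5 * l),
            (-(-1) ^ j * t / (2 * Real.pi * j * x ^ j)) * ((u : ℝ) * v) ^ j)‖ ≤ 2 * Real.exp (-(1 / 5 * L)) := by
        intro t x ht hx hx0
        refine le_trans (LOB_term (5 * l) t x ((u : ℝ) * v) hx0 (le_trans (hz x hx) hhalf)) ?_
        calc |t| * (2 * |(u : ℝ) * v / x| ^ (5 * l + 1))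
            ≤ Real.exp (l * L) * (2 * (Real.exp (-(1 / 5 * L))) ^ (5 * l + 1)) := by
              refine mul_le_mul (le_trans ht ht2') ?_ (by positivity) (Real.exp_pos _).le
              exact mul_le_mul_of_nonneg_left (pow_le_pow_left₀ (abs_nonneg _) (hz x hx) _) (by norm_num)
          _ = 2 * Real.exp (-(1 / 5 * L)) := by
              rw [← Real.exp_nat_mul, mul_left_comm, ← Real.exp_add]
              congr 2
              push_cast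
              ring
      have h1 := hone α p hαT hp1 hp0
      have h2 := hone β q hβT hq1 hqq0
      obtain ⟨e₁, he₁⟩ : ∃ e₁ : ℝ, e₁ = ∑ j ∈ Icc 1 (5 * l),
            (-(-1) ^ j * α / (2 * Real.pi * j * p ^ j)) * ((u : ℝ) * v) ^ j := ⟨_, rfl⟩
      obtain ⟨e₂, he₂⟩ : ∃ e₂ : ℝ, e₂ = ∑ j ∈ Icc 1 (5 * l),
            (-(-1) ^ j * β / (2 * Real.pi * j * q ^ j)) * ((u : ℝ) * v) ^ j := ⟨_, rfl⟩
      rw [← he₁] at h1
      rw [← he₂] at h2
      have e3 : a u v = ee e₁ * ee e₂ := by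
        rw [ha, ← LOB_ee_add, he₁, he₂, ← Finset.sum_add_distrib]
        refine congrArg ee (Finset.sum_congr rfl fun j _ => ?_)
        rw [hc]
        ring
      have e4 : nit α |p| * nit β |q| * a u v = (nit α |p| * ee e₁) * (nit β |q| * ee e₂) := by
        rw [e3]
        ring
      rw [e4]
      refine le_trans (LOB_two _ _ _ _ (LOC_nit_norm _ _) ?_) ?_
      · rw [norm_mul, LOC_nit_norm, LOB_ee_norm, one_mul]
      · linarith
    have hsplit : ∑ u ∈ Ioc 0 Y, ∑ v ∈ Ioc 0 Y, nit α |p + (u : ℝ) * v| * nit β |q + (u : ℝ) * v| =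
        ∑ u ∈ Ioc 0 Y, ∑ v ∈ Ioc 0 Y, (nit α |p + (u : ℝ) * v| * nit β |q + (u : ℝ) * v| -
          nit α |p| * nit β |q| * a u v) +
          nit α |p| * nit β |q| * ∑ u ∈ Ioc 0 Y, ∑ v ∈ Ioc 0 Y, a u v := by
      rw [Finset.mul_sum, ← Finset.sum_add_distrib]
      refine Finset.sum_congr rfl fun u _ => ?_
      rw [Finset.mul_sum, ← Finset.sum_add_distrib]
      refine Finset.sum_congr rfl fun v _ => ?_
      ring
    have hA : ‖∑ u ∈ Ioc 0 Y, ∑ v ∈ Ioc 0 Y, (nit α |p + (u : ℝ) * v| * nit β |q + (u : ℝ) * v| -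
          nit α |p| * nit β |q| * a u v)‖ ≤ (Y : ℝ) ^ 2 * (4 * Real.exp (-(1 / 5 * L))) := by
      refine le_trans (norm_sum_le _ _) ?_
      refine le_trans (Finset.sum_le_sum fun u _ => norm_sum_le _ _) ?_
      refine le_trans (Finset.sum_le_sum fun u hu => Finset.sum_le_sum fun v hv => hterm u hu v hv) ?_
      simp only [Finset.sum_const, Nat.card_Ioc, Nat.sub_zero, nsmul_eq_mul]
      rw [sq, mul_assoc]
    have hB : ‖nit α |p| * nit β |q| * ∑ u ∈ Ioc 0 Y, ∑ v ∈ Ioc 0 Y, a u v‖ ≤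
        (Y : ℝ) ^ 2 * Real.exp (-(3 / 100 * L / (250000 * (l : ℝ) ^ 6))) / ρ := by
      rw [norm_mul, norm_mul, LOC_nit_norm, LOC_nit_norm, one_mul, one_mul, ha]
      exact hmain
    have h6 : (1 : ℝ) ≤ (l : ℝ) ^ 6 := one_le_pow₀ hl'
    have e1 : Real.exp (-(1 / 5 * L)) ≤ Real.exp (-(1 / (10 ^ 8 * (l : ℝ) ^ 6)) * L) := by
      apply Real.exp_le_exp.2
      have : 1 / (10 ^ 8 * (l : ℝ) ^ 6) ≤ 1 / 5 := by
        apply one_div_le_one_div_of_le (by norm_num)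
        nlinarith
      nlinarith
    have e2 : Real.exp (-(3 / 100 * L / (250000 * (l : ℝ) ^ 6))) ≤
        Real.exp (-(1 / (10 ^ 8 * (l : ℝ) ^ 6)) * L) := by
      apply Real.exp_le_exp.2
      have e3 : 3 / 100 * L / (250000 * (l : ℝ) ^ 6) = 12 * (1 / (10 ^ 8 * (l : ℝ) ^ 6) * L) := by
        field_simp
        norm_num
      have e4 : 0 ≤ 1 / (10 ^ 8 * (l : ℝ) ^ 6) * L := by positivity
      rw [e3]
      linarith
    have e5 : (5 : ℝ) ≤ Real.exp (10 ^ 8 * (l : ℝ) ^ 3) := by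
      have := Real.add_one_le_exp (10 ^ 8 * (l : ℝ) ^ 3)
      have h3 : (1 : ℝ) ≤ (l : ℝ) ^ 3 := one_le_pow₀ hl'
      linarith
    rw [hsplit]
    obtain ⟨E, hE⟩ : ∃ E : ℝ, E = Real.exp (-(1 / (10 ^ 8 * (l : ℝ) ^ 6)) * L) := ⟨_, rfl⟩
    rw [← hE] at e1 e2 ⊢
    have hE0 : 0 < E := by rw [hE]; exact Real.exp_pos _
    have hEρ : E ≤ E / ρ := by
      rw [le_div_iff₀ hρ0]
      exact mul_le_of_le_one_right hE0.le hρ1
    calc _ ≤ (Y : ℝ) ^ 2 * (4 * Real.exp (-(1 / 5 * L))) +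
          (Y : ℝ) ^ 2 * Real.exp (-(3 / 100 * L / (250000 * (l : ℝ) ^ 6))) / ρ :=
          le_trans (norm_add_le _ _) (add_le_add hA hB)
      _ ≤ (Y : ℝ) ^ 2 * (4 * (E / ρ)) + (Y : ℝ) ^ 2 * E / ρ := by
          refine add_le_add (mul_le_mul_of_nonneg_left ?_ (by positivity))
            (div_le_div_of_nonneg_right (mul_le_mul_of_nonneg_left e2 (by positivity)) hρ0.le)
          linarith
      _ = (Y : ℝ) ^ 2 * (5 * E / ρ) := by ring
      _ ≤ Real.exp (4 / 5 * L) * (Real.exp (10 ^ 8 * (l : ℝ) ^ 3) * E / ρ) := by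
          refine mul_le_mul hYY ?_ (by positivity) (Real.exp_pos _).le
          exact div_le_div_of_nonneg_right (mul_le_mul_of_nonneg_right e5 hE0.le) hρ0.le

end Pool.Agent.BP
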