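import Pool.Agent.helper36.BP.SpecD

/-! Row MMS of project bp (MP_ad8ced_nt) -/

set_option autoImplicit false

open Finset
open Pool.Agent.FI Pool.Agent.HK
open Pool.Agent.CH (nit rgh ll2)
open Pool.Agent.SK (tr0 Th)

noncomputable section

namespace Pool.Agent.BP

private theorem MMS_log (n : ℕ) : ∃ x₁ : ℝ, ∀ x : ℝ, x₁ ≤ x → Real.log x ^ n ≤ x := by
  have h1 := isLittleO_log_rpow_rpow_atTop (n : ℝ) (by norm_num : (0 : ℝ) < 1)
  have h2 := h1.def (by norm_num : (0 : ℝ) < 1)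
  obtain ⟨a, ha⟩ := Filter.eventually_atTop.1 h2
  refine ⟨max a 1, fun x hx => ?_⟩
  have h3 := ha x ((le_max_left _ _).trans hx)
  have hx1 : 1 ≤ x := (le_max_right _ _).trans hx
  have hx0 : 0 ≤ x := by linarith
  rw [Real.rpow_natCast, one_mul, Real.norm_eq_abs, Real.norm_eq_abs,
    abs_of_nonneg (Real.rpow_nonneg hx0 _), Real.rpow_one] at h3
  exact (le_abs_self _).trans h3

private theorem MMS_N8 (z : ℤ × ℤ) (hz : z.1 % 2 = 1) : N8 z ≠ 0 := by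
  obtain ⟨k, hk⟩ : ∃ k, z.1 = 2 * k + 1 := ⟨z.1 / 2, by omega⟩
  unfold N8
  rw [hk]
  intro h
  have h1 : 2 * (2 * k ^ 2 + 2 * k - 4 * z.2 ^ 2) + 1 = 0 := by linarith
  omega

private theorem MMS_sq (ψ : ℤ × ℤ → ℂ) (j i : ℕ) (κ : ℝ) (z : ℤ × ℤ) (hz : z.1 % 2 = 1) :
    HC ψ j i κ z ^ 2 = HC (fun z => ψ z ^ 2) 0 0 (2 * κ) z := by
  have hs : (((N8 z).sign : ℤ) : ℂ) ^ 2 = 1 := by
    rcases lt_or_gt_of_ne (MMS_N8 z hz) with h | h
    · rw [Int.sign_eq_neg_one_of_neg h]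
      norm_num
    · rw [Int.sign_eq_one_of_pos h]
      norm_num
  unfold HC
  rw [mul_pow, mul_pow, mul_pow]
  have e1 : ((-1 : ℂ) ^ (j * z.2.natAbs)) ^ 2 = 1 := by
    rw [← pow_mul, Nat.mul_comm, pow_mul, neg_one_sq, one_pow]
  have e2 : ((((N8 z).sign : ℤ) : ℂ) ^ i) ^ 2 = 1 := by
    rw [← pow_mul, Nat.mul_comm, pow_mul, hs, one_pow]
  have e3 : Complex.exp ((κ : ℂ) * (yy z : ℂ) * Complex.I) ^ 2 =
      Complex.exp (((2 * κ : ℝ) : ℂ) * (yy z : ℂ) * Complex.I) := by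
    rw [← Complex.exp_nat_mul]
    congr 1
    push_cast
    ring
  rw [e1, e2, e3, Nat.zero_mul, pow_zero, pow_zero]

private theorem MMS_rc {d : ℕ} {ψ : ℤ × ℤ → ℂ} (h : IsRC d ψ) : IsRC d (fun z => ψ z ^ 2) := by
  obtain ⟨h1, h2, h3, h4, h5⟩ := h
  refine ⟨?_, ?_, ?_, ?_, ?_⟩
  · intro z w
    change ψ (mul8 z w) ^ 2 = ψ z ^ 2 * ψ w ^ 2
    rw [h1, mul_pow]
  · intro z w hz hw
    change ψ z ^ 2 = ψ w ^ 2
    rw [h2 z w hz hw]
  · intro z hz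
    change ψ z ^ 2 = 0
    rw [h3 z hz]
    norm_num
  · intro z hz
    change ‖ψ z ^ 2‖ = 1
    rw [norm_pow, h4 z hz, one_pow]
  · intro t ht
    change ψ (t, 0) ^ 2 = 1
    rw [h5 t ht, one_pow]

private theorem MMS_ui {ψ : ℤ × ℤ → ℂ} {j : ℕ} {κ : ℝ} (h : UInv ψ j κ) :
    UInv (fun z => ψ z ^ 2) 0 (2 * κ) := by
  unfold UInv at h ⊢
  have h1 := congrArg (fun w : ℂ => w ^ 2) h
  simp only [one_pow] at h1
  rw [mul_pow, mul_pow] at h1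
  have e1 : ((-1 : ℂ) ^ j) ^ 2 = 1 := by
    rw [← pow_mul, Nat.mul_comm, pow_mul, neg_one_sq, one_pow]
  rw [e1, ← Complex.exp_nat_mul] at h1
  rw [pow_zero]
  rw [← h1]
  congr 2
  push_cast
  ring

private theorem MMS_odd {y : ℕ} {z : ℤ × ℤ} (hz : z ∈ FF y) : z.1 % 2 = 1 := by
  classical
  unfold FF at hz
  exact (Finset.mem_filter.1 hz).2.1.1

private theorem MMS_cv {g h : ℕ → ℂ} (hg : CM g) (hh : CM h) {p : ℕ} (hp : p.Prime) : cv g h p = g p + h p := by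
  unfold cv
  rw [Nat.sum_divisorsAntidiagonal (fun a b => g a * h b), hp.divisors, Finset.sum_pair hp.one_lt.ne,
    Nat.div_one, Nat.div_self hp.pos, hg.2.1, hh.2.1]
  ring

private theorem MMS_rf (s1 : ∀ (F : ℤ × ℤ → ℂ) (y : ℕ), ∑ n ∈ Ioc 0 y, rf F n = ∑ z ∈ FF y, F z)
    (F : ℤ × ℤ → ℂ) (τ : ℝ) (y : ℕ) :
    ∑ n ∈ Ioc 0 y, rf F n * nit τ n = ∑ z ∈ FF y, F z * nit τ (nn z) := by
  rw [← s1 (fun z => F z * nit τ (nn z)) y]
  refine Finset.sum_congr rfl fun n _ => ?_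
  unfold rf
  rw [Finset.sum_mul]
  refine Finset.sum_congr rfl fun z hz => ?_
  beta_reduce
  rw [(Finset.mem_filter.1 hz).2]

theorem MMS (hVMG : VMG_stmt) (hCHT : CHT_stmt) (hMUE : MUE_stmt) (hTRI : TRI_stmt) (hUCH : UCH_stmt)
    (hCNP : CNP_stmt) (hSRF : SRF_stmt) : MMS_stmt := by
  classical
  intro A B K
  obtain ⟨A₁, xV, hV⟩ := hVMG A
  obtain ⟨xC, hC⟩ := hCHT A₁ B (K + 2)
  obtain ⟨xL, hL⟩ := MMS_log A₁
  obtain ⟨s1, -, -⟩ := hSRF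
  refine ⟨⌈max (max xV xC) (max xL 4)⌉₊, ?_⟩
  intro x hx d hd hdB ψ hψ j i hj hi κ t hU hκ0 hκ ht
  have hxm : max (max xV xC) (max xL 4) ≤ (x : ℝ) := (Nat.le_ceil _).trans (by exact_mod_cast hx)
  have hxV : xV ≤ (x : ℝ) := (le_max_left _ _).trans ((le_max_left _ _).trans hxm)
  have hxC : xC ≤ (x : ℝ) := (le_max_right _ _).trans ((le_max_left _ _).trans hxm)
  have hxL : xL ≤ (x : ℝ) := (le_max_left _ _).trans ((le_max_right _ _).trans hxm)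
  have hx4 : (4 : ℝ) ≤ (x : ℝ) := (le_max_right _ _).trans ((le_max_right _ _).trans hxm)
  have hx1 : (1 : ℝ) ≤ (x : ℝ) := by linarith
  have hLA := hL (x : ℝ) hxL
  have hUC := hUCH d ψ j i κ hψ hU
  obtain ⟨k₁, k₂, g₁, g₂, h₁, h₂, ck1, ck2, cg1, cg2, ch1, ch2, htri, hcv⟩ := hTRI d (HC ψ j i κ) hUC
  have hK0 : (0 : ℝ) < (x : ℝ) ^ K := by positivity
  have hK1 : (x : ℝ) ^ K ≤ (x : ℝ) ^ (K + 1) := pow_le_pow_right₀ hx1 (Nat.le_succ K)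
  have hK2 : (x : ℝ) ≤ (x : ℝ) ^ (K + 1) := by
    calc (x : ℝ) = (x : ℝ) ^ 1 := (pow_one _).symm
      _ ≤ _ := pow_le_pow_right₀ hx1 (by omega)
  have hK3 : 4 * (x : ℝ) ^ (K + 1) ≤ (x : ℝ) ^ (K + 2) := by
    have e : (x : ℝ) ^ (K + 2) = (x : ℝ) * (x : ℝ) ^ (K + 1) := by ring
    rw [e]
    exact mul_le_mul_of_nonneg_right hx4 (by positivity)
  have hK4 : 0 ≤ (x : ℝ) ^ (K + 1) := by positivity
  have hDt : DtR (x : ℝ) A₁ ((x : ℝ) ^ K + Real.log x ^ A₁) k₁ k₂ g₁ g₂ h₁ h₂ := by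
    refine ⟨ck1, ck2, cg1, cg2, ch1, ch2, htri, ?_, ?_, ?_⟩
    · intro p hp
      rw [← MMS_cv ck1 ck2 hp, ← (hcv p hp.pos).1]
      have h1 : ‖rf (I1 d) p‖ ≤ #{z ∈ FF p | nn z = p} := by
        unfold rf
        refine (norm_sum_le _ _).trans ?_
        refine (Finset.sum_le_sum (g := fun _ => (1 : ℝ)) ?_).trans ?_
        · intro z _
          unfold I1
          split_ifs
          · rw [norm_one]
          · rw [norm_zero]
            exact zero_le_one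
        · rw [Finset.sum_const, nsmul_eq_mul, mul_one]
      refine h1.trans (le_of_eq ?_)
      rw [hCNP p hp]
      split_ifs
      · norm_num
      · norm_num
    · intro τ hτ v hv
      have h1 : ∑ n ∈ Ioc 0 v, cv g₁ g₂ n * nit τ n = ∑ n ∈ Ioc 0 v, rf (HC ψ j i κ) n * nit τ n := by
        refine Finset.sum_congr rfl fun n hn => ?_
        rw [(hcv n (Finset.mem_Ioc.1 hn).1).2.1]
      rw [h1, MMS_rf s1]
      refine hC x hxC d hd hdB ψ hψ j i hj hi κ τ hU hκ0 (by linarith) (by linarith) v hv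
    · intro τ hτ v hv
      have h1 : ∑ n ∈ Ioc 0 v, cv h₁ h₂ n * nit τ n =
          ∑ n ∈ Ioc 0 v, rf (fun z => HC ψ j i κ z ^ 2) n * nit τ n := by
        refine Finset.sum_congr rfl fun n hn => ?_
        rw [(hcv n (Finset.mem_Ioc.1 hn).1).2.2]
      rw [h1, MMS_rf s1]
      have h2 : ∑ z ∈ FF v, HC ψ j i κ z ^ 2 * nit τ (nn z) =
          ∑ z ∈ FF v, HC (fun z => ψ z ^ 2) 0 0 (2 * κ) z * nit τ (nn z) :=
        Finset.sum_congr rfl fun z hz => by rw [MMS_sq ψ j i κ z (MMS_odd hz)]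
      rw [h2]
      have h3 : |2 * κ| ≤ (x : ℝ) ^ (K + 2) := by
        rw [abs_mul, abs_two]
        linarith
      exact hC x hxC d hd hdB (fun z => ψ z ^ 2) (MMS_rc hψ) 0 0 (by norm_num) (by norm_num) (2 * κ) τ
        (MMS_ui hU) (mul_ne_zero two_ne_zero hκ0) h3 (by linarith) v hv
  have hmain := hV (x : ℝ) hxV ((x : ℝ) ^ K) k₁ k₂ g₁ g₂ h₁ h₂ hDt t ht
  rw [Nat.floor_natCast] at hmain
  have h4 : ∑ z ∈ FF x, (mue z : ℂ) * HC ψ j i κ z * nit t (nn z) =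
      ∑ n ∈ Ioc 0 x, cv (mg g₁) (mg g₂) n * nit t n := by
    rw [← MMS_rf s1 (fun z => (mue z : ℂ) * HC ψ j i κ z) t x]
    refine Finset.sum_congr rfl fun n hn => ?_
    rw [hMUE d (HC ψ j i κ) hd hUC g₁ g₂ cg1 cg2 (fun n hn => (hcv n hn).2.1) n (Finset.mem_Ioc.1 hn).1]
  rw [h4]
  exact hmain

end Pool.Agent.BP
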